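import Pool.Agent.Helper74.FN.St.Stubs

/-!
# FN-N7, N8, N9, N10: numerics of one world
-/

set_option autoImplicit false

namespace Pool.Agent.Helper76.FN

open Finset
open Pool.Agent.Helper53.WR
open Pool.Agent.Helper74.FN

theorem pow_div_le {m n : ℕ} (h : m + 3 ≤ n) : (2 : ℝ) ^ m / 2 ^ n ≤ 1 / 8 := by
  rw [div_le_div_iff₀ (by positivity) (by norm_num)]
  calc (2 : ℝ) ^ m * 8 = 2 ^ (m + 3) := by ring
    _ ≤ 2 ^ n := pow_le_pow_right₀ (by norm_num) h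
    _ = 1 * 2 ^ n := by ring

theorem exp_neg_le (n : ℕ) : Real.exp (-(n : ℝ)) ≤ 1 / 2 ^ n := by
  have h1 : (2 : ℝ) ≤ Real.exp 1 := by
    have := Real.add_one_le_exp 1
    linarith
  have h2 : (2 : ℝ) ^ n ≤ Real.exp n := by
    rw [← Real.exp_one_pow]
    exact pow_le_pow_left₀ (by norm_num) h1 n
  rw [Real.exp_neg, ← one_div]
  exact one_div_le_one_div_of_le (by positivity) h2

/-- The scales of two consecutive worlds. -/
theorem u_facts {a u b w r c : ℕ → ℕ} (h : NTow a u b w r c) (k : ℕ) :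
    a (k + 1) = a k + u k ∧ a (k + 2) = a k + u k + u (k + 1) ∧ u (k + 1) ≤ 2 * u k ∧
      3 * laT u k ≤ 40 * u k ∧ laT u k ≤ 14 * u k - 5 := by
  have h1 := h.step k
  have h2 := h.step (k + 1)
  have h3 := h.uu k
  have h4 := (Pool.Agent.Helper74.FN.St.NTow.facts h k).1
  unfold laT
  refine ⟨h1, ?_, by omega, by omega, by omega⟩
  rw [h2, h1]

theorem a_lt {a u b w r c : ℕ → ℕ} (h : NTow a u b w r c) {k i : ℕ} (hi : k < i) :
    a k + u k ≤ a i := by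
  induction i with
  | zero => omega
  | succ i ih =>
    rcases Nat.lt_succ_iff_lt_or_eq.1 hi with h1 | h1
    · have := ih h1
      have := h.step i
      omega
    · have := h.step i
      subst h1
      omega

/-- FN-N7 (numerics of the choice of `τ`). -/
theorem tau_num {a u b w r c : ℕ → ℕ} (h : NTow a u b w r c) (k : ℕ) (q : ℕ → ℕ)
    (hq : ∀ i, (q i).Prime ∧ 2 ^ (a i) < q i ∧ q i ≤ 2 ^ (a i + 1)) (I : Finset ℕ)
    (hI : ∀ i ∈ I, k < i ∧ a i ≤ 3 * a k) :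
    54 * (2 ^ (24 * u k)) ^ 2 ≤ q k ∧
    (((q k : ℝ) ^ 4 + ∑ i ∈ I, ((q i ^ 2 : ℕ) : ℝ)) *
      (Real.exp (-(8 * ((a k : ℕ) : ℝ))) +
        3 * ((54 * ((2 ^ (24 * u k) : ℕ) : ℝ) ^ 2) / q k) ^ 7) < 1 / 2) ∧
    12 * (4 * a k) ≤ q k ∧ 3 * (2 ^ (11 * u k) + 1) ≤ q k ∧
    ((q k : ℝ) ^ 3 * Real.exp (-((4 * a k : ℕ) : ℝ)) +
      (((q (k + 1) ^ 4 : ℕ) : ℝ) + ((q (k + 2) ^ 4 : ℕ) : ℝ)) *
        (3 * (3 * (((2 ^ (11 * u k) : ℕ) : ℝ) + 1) / q k) ^ 5) < 1 / 2) := by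
  obtain ⟨f1, f2, -, f4, -⟩ := Pool.Agent.Helper74.FN.St.NTow.facts h k
  obtain ⟨g1, g2, g3, g4, g5⟩ := u_facts h k
  obtain ⟨-, hq1, hq2⟩ := hq k
  set A := a k with hA
  set U := u k with hU
  have hAU : 1000 * U + 1000 ≤ A := by
    have : 2 ^ 42 * U ≤ A := f2
    omega
  have hq1R : (2 : ℝ) ^ A ≤ q k := by exact_mod_cast hq1.le
  have hq2R : (q k : ℝ) ≤ 2 ^ (A + 1) := by exact_mod_cast hq2
  have hq0 : (0 : ℝ) < q k := lt_of_lt_of_le (by positivity) hq1R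
  have hA2 : A < 2 ^ A := Nat.lt_two_pow_self
  refine ⟨?_, ?_, ?_, ?_, ?_⟩
  · calc 54 * (2 ^ (24 * U)) ^ 2 ≤ 64 * (2 ^ (24 * U)) ^ 2 := by
          exact Nat.mul_le_mul_right _ (by norm_num)
      _ = 2 ^ (48 * U + 6) := by
          rw [← pow_mul, show 64 = 2 ^ 6 by norm_num, ← pow_add]
          congr 1
          ring
      _ ≤ 2 ^ A := Nat.pow_le_pow_right (by norm_num) (by omega)
      _ ≤ q k := hq1.le
  · -- the sum over the moduli
    have hterm : ∀ i ∈ I, ((q i ^ 2 : ℕ) : ℝ) ≤ 2 ^ (6 * A + 2) := by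
      intro i hi
      have h1 := (hI i hi).2
      have h2 := (hq i).2.2
      have h3 : q i ^ 2 ≤ (2 ^ (a i + 1)) ^ 2 := Nat.pow_le_pow_left h2 2
      have h4 : (2 ^ (a i + 1)) ^ 2 ≤ 2 ^ (6 * A + 2) := by
        rw [← pow_mul]
        exact Nat.pow_le_pow_right (by norm_num) (by omega)
      exact_mod_cast h3.trans h4
    have hcard : I.card ≤ 3 * A := by
      have hsub : I ⊆ range (3 * A) := by
        intro i hi
        rw [mem_range]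
        have h1 := (hI i hi).2
        have h2 := (Pool.Agent.Helper74.FN.St.NTow.facts h i).2.2.1
        omega
      simpa using card_le_card hsub
    have hsumI : ∑ i ∈ I, ((q i ^ 2 : ℕ) : ℝ) ≤ 2 ^ (6 * A + U + 4) := by
      calc ∑ i ∈ I, ((q i ^ 2 : ℕ) : ℝ) ≤ I.card • (2 : ℝ) ^ (6 * A + 2) :=
            Finset.sum_le_card_nsmul _ _ _ hterm
        _ = (I.card : ℝ) * 2 ^ (6 * A + 2) := nsmul_eq_mul _ _
        _ ≤ (4 * 2 ^ U) * 2 ^ (6 * A + 2) := by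
            refine mul_le_mul_of_nonneg_right ?_ (by positivity)
            have h1 : I.card ≤ 4 * 2 ^ U := by omega
            exact_mod_cast h1
        _ = 2 ^ (6 * A + U + 4) := by ring
    have hq4 : (q k : ℝ) ^ 4 ≤ 2 ^ (6 * A + U + 4) := by
      calc (q k : ℝ) ^ 4 ≤ (2 ^ (A + 1)) ^ 4 := pow_le_pow_left₀ hq0.le hq2R 4
        _ = 2 ^ (4 * A + 4) := by rw [← pow_mul]; congr 1; ring
        _ ≤ 2 ^ (6 * A + U + 4) := pow_le_pow_right₀ (by norm_num) (by omega)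
    have hP : (q k : ℝ) ^ 4 + ∑ i ∈ I, ((q i ^ 2 : ℕ) : ℝ) ≤ 2 ^ (6 * A + U + 5) := by
      calc _ ≤ (2 : ℝ) ^ (6 * A + U + 4) + 2 ^ (6 * A + U + 4) := add_le_add hq4 hsumI
        _ = 2 ^ (6 * A + U + 5) := by ring
    have hP0 : 0 ≤ (q k : ℝ) ^ 4 + ∑ i ∈ I, ((q i ^ 2 : ℕ) : ℝ) := by positivity
    have hE1 : Real.exp (-(8 * ((A : ℕ) : ℝ))) ≤ 1 / 2 ^ (8 * A) := by
      have := exp_neg_le (8 * A)
      push_cast at this
      exact this
    have hE2 : 3 * ((54 * ((2 ^ (24 * U) : ℕ) : ℝ) ^ 2) / q k) ^ 7 ≤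
        2 ^ (336 * U + 44) / 2 ^ (7 * A) := by
      have h1 : (54 * ((2 ^ (24 * U) : ℕ) : ℝ) ^ 2) / q k ≤ 2 ^ (48 * U + 6) / 2 ^ A := by
        refine div_le_div₀ (by positivity) ?_ (by positivity) hq1R
        push_cast
        calc (54 : ℝ) * (2 ^ (24 * U)) ^ 2 ≤ 64 * (2 ^ (24 * U)) ^ 2 := by
              refine mul_le_mul_of_nonneg_right (by norm_num) (by positivity)
          _ = 2 ^ (48 * U + 6) := by
              rw [← pow_mul, show (64 : ℝ) = 2 ^ 6 by norm_num, ← pow_add]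
              congr 1
              ring
      calc 3 * ((54 * ((2 ^ (24 * U) : ℕ) : ℝ) ^ 2) / q k) ^ 7 ≤
            4 * (2 ^ (48 * U + 6) / 2 ^ A) ^ 7 := by
              refine mul_le_mul (by norm_num) (pow_le_pow_left₀ (by positivity) h1 7)
                (by positivity) (by norm_num)
        _ = 2 ^ (336 * U + 44) / 2 ^ (7 * A) := by
            rw [div_pow, ← pow_mul, ← pow_mul, mul_comm A 7, ← mul_div_assoc]
            congr 1
            rw [show (4 : ℝ) = 2 ^ 2 by norm_num, ← pow_add]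
            congr 1
            ring
    have k1 : (2 : ℝ) ^ (6 * A + U + 5) * (1 / 2 ^ (8 * A)) ≤ 1 / 8 := by
      rw [mul_one_div]
      exact pow_div_le (by omega)
    have k2 : (2 : ℝ) ^ (6 * A + U + 5) * (2 ^ (336 * U + 44) / 2 ^ (7 * A)) ≤ 1 / 8 := by
      rw [← mul_div_assoc, ← pow_add]
      exact pow_div_le (by omega)
    calc ((q k : ℝ) ^ 4 + ∑ i ∈ I, ((q i ^ 2 : ℕ) : ℝ)) *
        (Real.exp (-(8 * ((A : ℕ) : ℝ))) +
          3 * ((54 * ((2 ^ (24 * U) : ℕ) : ℝ) ^ 2) / q k) ^ 7)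
        ≤ 2 ^ (6 * A + U + 5) * (1 / 2 ^ (8 * A) + 2 ^ (336 * U + 44) / 2 ^ (7 * A)) := by
          refine mul_le_mul hP (add_le_add hE1 hE2) (by positivity) (by positivity)
      _ = 2 ^ (6 * A + U + 5) * (1 / 2 ^ (8 * A)) +
          2 ^ (6 * A + U + 5) * (2 ^ (336 * U + 44) / 2 ^ (7 * A)) := by ring
      _ < 1 / 2 := by linarith
  · have h1 : 12 * (4 * A) ≤ 2 ^ A := by
      have h2 : A < 2 ^ U := f4
      calc 12 * (4 * A) ≤ 64 * 2 ^ U := by omega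
        _ = 2 ^ (U + 6) := by rw [pow_add]; ring
        _ ≤ 2 ^ A := Nat.pow_le_pow_right (by norm_num) (by omega)
    exact h1.trans hq1.le
  · have h1 : 3 * (2 ^ (11 * U) + 1) ≤ 2 ^ (11 * U + 3) := by
      have : 1 ≤ 2 ^ (11 * U) := Nat.one_le_two_pow
      rw [pow_add]
      omega
    exact (h1.trans (Nat.pow_le_pow_right (by norm_num) (by omega))).trans hq1.le
  · have hq3 : (q k : ℝ) ^ 3 ≤ 2 ^ (3 * A + 3) := by
      calc (q k : ℝ) ^ 3 ≤ (2 ^ (A + 1)) ^ 3 := pow_le_pow_left₀ hq0.le hq2R 3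
        _ = 2 ^ (3 * A + 3) := by rw [← pow_mul]; congr 1; ring
    have k1 : (q k : ℝ) ^ 3 * Real.exp (-((4 * A : ℕ) : ℝ)) ≤ 1 / 8 := by
      calc (q k : ℝ) ^ 3 * Real.exp (-((4 * A : ℕ) : ℝ)) ≤ 2 ^ (3 * A + 3) * (1 / 2 ^ (4 * A)) :=
            mul_le_mul hq3 (exp_neg_le _) (Real.exp_pos _).le (by positivity)
        _ = 2 ^ (3 * A + 3) / 2 ^ (4 * A) := mul_one_div _ _
        _ ≤ 1 / 8 := pow_div_le (by omega)
    have hm1 : ((q (k + 1) ^ 4 : ℕ) : ℝ) ≤ 2 ^ (4 * A + 12 * U + 4) := by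
      have h3 : q (k + 1) ^ 4 ≤ (2 ^ (a (k + 1) + 1)) ^ 4 := Nat.pow_le_pow_left (hq _).2.2 4
      have h4 : (2 ^ (a (k + 1) + 1)) ^ 4 ≤ 2 ^ (4 * A + 12 * U + 4) := by
        rw [← pow_mul]
        exact Nat.pow_le_pow_right (by norm_num) (by omega)
      exact_mod_cast h3.trans h4
    have hm2 : ((q (k + 2) ^ 4 : ℕ) : ℝ) ≤ 2 ^ (4 * A + 12 * U + 4) := by
      have h3 : q (k + 2) ^ 4 ≤ (2 ^ (a (k + 2) + 1)) ^ 4 := Nat.pow_le_pow_left (hq _).2.2 4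
      have h4 : (2 ^ (a (k + 2) + 1)) ^ 4 ≤ 2 ^ (4 * A + 12 * U + 4) := by
        rw [← pow_mul]
        exact Nat.pow_le_pow_right (by norm_num) (by omega)
      exact_mod_cast h3.trans h4
    have hE : 3 * (3 * (((2 ^ (11 * U) : ℕ) : ℝ) + 1) / q k) ^ 5 ≤
        2 ^ (55 * U + 17) / 2 ^ (5 * A) := by
      have h1 : 3 * (((2 ^ (11 * U) : ℕ) : ℝ) + 1) / q k ≤ 2 ^ (11 * U + 3) / 2 ^ A := by
        refine div_le_div₀ (by positivity) ?_ (by positivity) hq1R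
        push_cast
        have h2 : (1 : ℝ) ≤ 2 ^ (11 * U) := one_le_pow₀ (by norm_num)
        rw [pow_add]
        linarith
      calc 3 * (3 * (((2 ^ (11 * U) : ℕ) : ℝ) + 1) / q k) ^ 5 ≤
            4 * (2 ^ (11 * U + 3) / 2 ^ A) ^ 5 := by
              refine mul_le_mul (by norm_num) (pow_le_pow_left₀ (by positivity) h1 5)
                (by positivity) (by norm_num)
        _ = 2 ^ (55 * U + 17) / 2 ^ (5 * A) := by
            rw [div_pow, ← pow_mul, ← pow_mul, mul_comm A 5, ← mul_div_assoc]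
            congr 1
            rw [show (4 : ℝ) = 2 ^ 2 by norm_num, ← pow_add]
            congr 1
            ring
    have k2 : (((q (k + 1) ^ 4 : ℕ) : ℝ) + ((q (k + 2) ^ 4 : ℕ) : ℝ)) *
        (3 * (3 * (((2 ^ (11 * U) : ℕ) : ℝ) + 1) / q k) ^ 5) ≤ 1 / 8 := by
      calc _ ≤ ((2 : ℝ) ^ (4 * A + 12 * U + 4) + 2 ^ (4 * A + 12 * U + 4)) *
            (2 ^ (55 * U + 17) / 2 ^ (5 * A)) :=
            mul_le_mul (add_le_add hm1 hm2) hE (by positivity) (by positivity)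
        _ = 2 ^ (4 * A + 67 * U + 22) / 2 ^ (5 * A) := by
            rw [← mul_div_assoc]
            congr 1
            ring
        _ ≤ 1 / 8 := pow_div_le (by omega)
    linarith

/-- FN-N8 (numerics of the moduli and of the additive constants). -/
theorem mod4_num {a u b w r c : ℕ → ℕ} (h : NTow a u b w r c) (k : ℕ) (q : ℕ → ℕ)
    (hq : ∀ i, (q i).Prime ∧ 2 ^ (a i) < q i ∧ q i ≤ 2 ^ (a i + 1)) (i : ℕ)
    (hi : i = k + 1 ∨ i = k + 2) :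
    q k ^ 4 * (2 * 2 ^ s0 u k + 2 ^ laT u k) ≤ 2 ^ (11 * u k) * q i ^ 4 ∧
      q k ^ 4 * (2 * 2 ^ s0 u k + 2 ^ laT u k) ≤ q i ^ 4 * q k ^ 2 := by
  obtain ⟨f1, f2, -, -, -⟩ := Pool.Agent.Helper74.FN.St.NTow.facts h k
  obtain ⟨g1, g2, g3, g4, g5⟩ := u_facts h k
  have hki : k < i := by omega
  have hai := a_lt h hki
  have f2' : 1000 * u k + 1000 ≤ a k := by omega
  have hs : 2 * 2 ^ s0 u k + 2 ^ laT u k ≤ 2 ^ (14 * u k - 4) := by
    have h1 : 2 * 2 ^ s0 u k ≤ 2 ^ (14 * u k - 5) := by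
      rw [← pow_succ']
      exact Nat.pow_le_pow_right (by norm_num) (by unfold s0; omega)
    have h2 : 2 ^ laT u k ≤ 2 ^ (14 * u k - 5) := Nat.pow_le_pow_right (by norm_num) g5
    calc 2 * 2 ^ s0 u k + 2 ^ laT u k ≤ 2 ^ (14 * u k - 5) + 2 ^ (14 * u k - 5) :=
          add_le_add h1 h2
      _ = 2 ^ (14 * u k - 5 + 1) := by rw [pow_succ]; ring
      _ = 2 ^ (14 * u k - 4) := by congr 1; omega
  have hqk : q k ^ 4 ≤ 2 ^ (4 * a k + 4) := by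
    calc q k ^ 4 ≤ (2 ^ (a k + 1)) ^ 4 := Nat.pow_le_pow_left (hq k).2.2 4
      _ = 2 ^ (4 * a k + 4) := by rw [← pow_mul]; congr 1; ring
  have hqi : 2 ^ (4 * a k + 4 * u k) ≤ q i ^ 4 := by
    calc 2 ^ (4 * a k + 4 * u k) ≤ (2 ^ (a i)) ^ 4 := by
          rw [← pow_mul]
          exact Nat.pow_le_pow_right (by norm_num) (by omega)
      _ ≤ q i ^ 4 := Nat.pow_le_pow_left (hq i).2.1.le 4
  have hL : q k ^ 4 * (2 * 2 ^ s0 u k + 2 ^ laT u k) ≤ 2 ^ (4 * a k + 14 * u k) := by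
    calc _ ≤ 2 ^ (4 * a k + 4) * 2 ^ (14 * u k - 4) := Nat.mul_le_mul hqk hs
      _ = 2 ^ (4 * a k + 14 * u k) := by rw [← pow_add]; congr 1; omega
  constructor
  · refine hL.trans ?_
    calc 2 ^ (4 * a k + 14 * u k) ≤ 2 ^ (11 * u k) * 2 ^ (4 * a k + 4 * u k) := by
          rw [← pow_add]
          exact Nat.pow_le_pow_right (by norm_num) (by omega)
      _ ≤ _ := Nat.mul_le_mul_left _ hqi
  · refine hL.trans ?_
    have h2 : 2 ^ (2 * a k) ≤ q k ^ 2 := by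
      calc 2 ^ (2 * a k) = (2 ^ (a k)) ^ 2 := by rw [← pow_mul]; congr 1; ring
        _ ≤ q k ^ 2 := Nat.pow_le_pow_left (hq k).2.1.le 2
    calc 2 ^ (4 * a k + 14 * u k) ≤ 2 ^ (4 * a k + 4 * u k) * 2 ^ (2 * a k) := by
          rw [← pow_add]
          exact Nat.pow_le_pow_right (by norm_num) (by omega)
      _ ≤ _ := Nat.mul_le_mul hqi h2

/-- FN-N9 (numerics of the moduli). -/
theorem mod2_num {a u b w r c : ℕ → ℕ} (h : NTow a u b w r c) (k : ℕ) (q : ℕ → ℕ)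
    (hq : ∀ i, (q i).Prime ∧ 2 ^ (a i) < q i ∧ q i ≤ 2 ^ (a i + 1)) (i : ℕ) (hi : k < i) :
    2 ^ s0 u k + 2 ^ laT u k < q i ^ 2 ∧ q k ^ 2 ≤ q i ^ 2 ∧ Nat.Coprime (q k) (q i) ∧
      (3 * a k < a i → 2 ^ (4 * a (k + 1) + 8 * u (k + 1)) ≤ q i ^ 2) := by
  obtain ⟨f1, f2, -, -, -⟩ := Pool.Agent.Helper74.FN.St.NTow.facts h k
  obtain ⟨g1, g2, g3, g4, g5⟩ := u_facts h k
  have hai := a_lt h hi
  have f2' : 1000 * u k + 1000 ≤ a k := by omega
  have hqi : 2 ^ (2 * a i) < q i ^ 2 := by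
    calc 2 ^ (2 * a i) = (2 ^ (a i)) ^ 2 := by rw [← pow_mul]; congr 1; ring
      _ < q i ^ 2 := Nat.pow_lt_pow_left (hq i).2.1 (by norm_num)
  have hlt : q k < q i := by
    calc q k ≤ 2 ^ (a k + 1) := (hq k).2.2
      _ ≤ 2 ^ (a i) := Nat.pow_le_pow_right (by norm_num) (by omega)
      _ < q i := (hq i).2.1
  refine ⟨?_, Nat.pow_le_pow_left hlt.le 2, ?_, ?_⟩
  · refine lt_of_le_of_lt ?_ hqi
    calc 2 ^ s0 u k + 2 ^ laT u k ≤ 2 ^ (14 * u k) + 2 ^ (14 * u k) := by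
          refine add_le_add (Nat.pow_le_pow_right (by norm_num) ?_)
            (Nat.pow_le_pow_right (by norm_num) (by omega))
          unfold s0
          omega
      _ = 2 ^ (14 * u k + 1) := by rw [pow_succ]; ring
      _ ≤ 2 ^ (2 * a i) := Nat.pow_le_pow_right (by norm_num) (by omega)
  · exact (Nat.coprime_primes (hq k).1 (hq i).1).2 hlt.ne
  · intro h3
    refine le_trans (Nat.pow_le_pow_right (by norm_num) ?_) hqi.le
    omega

/-- FN-N10 (numerics of the additive constant of the windows). -/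
theorem L_num {a u b w r c : ℕ → ℕ} (h : NTow a u b w r c) (k : ℕ) {q : ℕ}
    (hq2 : q ≤ 2 ^ (a k + 1)) :
    (q : ℝ) ^ 4 * (2 * ((2 ^ s0 u k : ℕ) : ℝ) + ((2 ^ laT u k : ℕ) : ℝ)) *
      Real.exp (-((5 * a k : ℕ) : ℝ)) < 1 / 8 := by
  obtain ⟨f1, f2, -, -, -⟩ := Pool.Agent.Helper74.FN.St.NTow.facts h k
  obtain ⟨g1, g2, g3, g4, g5⟩ := u_facts h k
  have f2' : 1000 * u k + 1000 ≤ a k := by omega
  have hq2R : (q : ℝ) ≤ 2 ^ (a k + 1) := by exact_mod_cast hq2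
  have hq4 : (q : ℝ) ^ 4 ≤ 2 ^ (4 * a k + 4) := by
    calc (q : ℝ) ^ 4 ≤ (2 ^ (a k + 1)) ^ 4 := pow_le_pow_left₀ (Nat.cast_nonneg q) hq2R 4
      _ = 2 ^ (4 * a k + 4) := by rw [← pow_mul]; congr 1; ring
  have hs : 2 * ((2 ^ s0 u k : ℕ) : ℝ) + ((2 ^ laT u k : ℕ) : ℝ) ≤ 2 ^ (14 * u k) := by
    have h1 : 2 * 2 ^ s0 u k ≤ 2 ^ (14 * u k - 1) := by
      rw [← pow_succ']
      exact Nat.pow_le_pow_right (by norm_num) (by unfold s0; omega)
    have h2 : 2 ^ laT u k ≤ 2 ^ (14 * u k - 1) := Nat.pow_le_pow_right (by norm_num) (by omega)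
    have h3 : 2 * 2 ^ s0 u k + 2 ^ laT u k ≤ 2 ^ (14 * u k) := by
      calc 2 * 2 ^ s0 u k + 2 ^ laT u k ≤ 2 ^ (14 * u k - 1) + 2 ^ (14 * u k - 1) :=
            add_le_add h1 h2
        _ = 2 ^ (14 * u k - 1 + 1) := by rw [pow_succ]; ring
        _ = 2 ^ (14 * u k) := by congr 1; omega
    exact_mod_cast h3
  calc (q : ℝ) ^ 4 * (2 * ((2 ^ s0 u k : ℕ) : ℝ) + ((2 ^ laT u k : ℕ) : ℝ)) *
        Real.exp (-((5 * a k : ℕ) : ℝ))
      ≤ (2 ^ (4 * a k + 4) * 2 ^ (14 * u k)) * (1 / 2 ^ (5 * a k)) := by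
        refine mul_le_mul (mul_le_mul hq4 hs (by positivity) (by positivity)) (exp_neg_le _)
          (Real.exp_pos _).le (by positivity)
    _ = 2 ^ (4 * a k + 4 + 14 * u k) / 2 ^ (5 * a k) := by
        rw [mul_one_div, ← pow_add]
    _ = 2 ^ (4 * a k + 4 + 14 * u k + 1) / 2 ^ (5 * a k) / 2 := by
        rw [pow_succ]
        ring
    _ ≤ (1 / 8) / 2 := by
        refine div_le_div_of_nonneg_right ?_ (by norm_num)
        exact pow_div_le (by omega)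
    _ < 1 / 8 := by norm_num

end Pool.Agent.Helper76.FN
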